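import Mathlib

set_option autoImplicit false

namespace Pool.Agent.Results.MP_b5825f_co.Counter

variable {P : Type} [PartialOrder P]

open Classical in
/-- The number of jumps of a list: consecutive pairs `x, y` with `¬ x < y`. -/
noncomputable def jumps (L : List P) : ℕ := (L.zip L.tail).countP fun p => ¬ p.1 < p.2

/-- `L` lists the elements of `S` once each, compatibly with the order. -/
def LinExt (S : Set P) (L : List P) : Prop :=
  L.Nodup ∧ (∀ x, x ∈ L ↔ x ∈ S) ∧ L.Pairwise fun x y => ¬ y < x

/-- The jump number of the subposet induced on `S`. -/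
noncomputable def σ (S : Set P) : ℕ := sInf {k | ∃ L, LinExt S L ∧ jumps L = k}

def Q := Fin 6

instance : DecidableEq Q := inferInstanceAs (DecidableEq (Fin 6))
instance : Fintype Q := inferInstanceAs (Fintype (Fin 6))

instance : PartialOrder Q where
  le (x y : Fin 6) := x = y ∨ x.1 / 2 < y.1 / 2
  lt (x y : Fin 6) := x.1 / 2 < y.1 / 2
  le_refl _ := .inl rfl
  le_trans := by decide
  le_antisymm := by decide
  lt_iff_le_not_ge := by decide

instance : DecidableLT Q := fun (x y : Fin 6) => inferInstanceAs (Decidable (x.1 / 2 < y.1 / 2))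

def j (L : List Q) : ℕ := (L.zip L.tail).countP fun p => ¬ p.1 < p.2

lemma jj (L : List Q) : jumps L = j L := List.countP_congr fun _ _ => by simp

theorem result : ∃ (P : Type) (_ : Finite P) (_ : PartialOrder P), σ (Set.univ : Set P) = 3 ∧
    (∀ x : P, σ {x}ᶜ < 3) ∧ ∃ x y z : P, x < y ∧ y < z := by
  let l : List Q := List.finRange 6
  refine ⟨Q, inferInstance, inferInstance, ?_, fun x => ?_,
    (0 : Fin 6), (2 : Fin 6), (4 : Fin 6), by decide⟩
  · have : ∀ L ∈ l.permutations', (L.Pairwise fun x y => ¬ y < x) → j L = 3 := by decide +kernel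
    refine (congrArg sInf (Set.eq_singleton_iff_unique_mem.2 ⟨?_, ?_⟩)).trans (csInf_singleton 3)
    · exact ⟨l, ⟨by decide, fun x => iff_of_true (List.mem_finRange x) trivial, by decide⟩,
        (jj _).trans (by decide)⟩
    rintro _ ⟨L, ⟨h1, h2, h3⟩, rfl⟩
    exact (jj L).trans (this L (List.mem_permutations'.2 ((List.perm_ext_iff_of_nodup h1
      (by decide)).2 fun x => iff_of_true ((h2 x).2 trivial) (List.mem_finRange x))) h3)
  · refine (Nat.sInf_le (m := j (l.erase x)) ?_).trans_lt (by revert x; decide)
    refine ⟨l.erase x, ⟨?_, ?_, ?_⟩, jj _⟩ <;> revert x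
    · decide
    · simp only [Set.mem_compl_iff, Set.mem_singleton_iff]; decide
    · decide

end Pool.Agent.Results.MP_b5825f_co.Counter
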